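import Pool.Agent.helper17.SG.SpecB

/-!
# Project sg: part B05, the measure `lam`
-/

set_option autoImplicit false

open MeasureTheory Set Metric Filter Topology
open scoped ENNReal NNReal ComplexConjugate

namespace Pool.Agent.SG

lemma B05_norm_sub (θ φ : ℝ) :
    ‖circleMap 0 1 θ - circleMap 0 1 φ‖ = 2 * |Real.sin ((θ - φ) / 2)| := by
  have h1 : circleMap 0 1 θ - circleMap 0 1 φ =
      circleMap 0 1 φ * (Complex.exp (Complex.I * ((θ - φ : ℝ) : ℂ)) - 1) := by
    rw [circleMap_zero, circleMap_zero, mul_sub, mul_one]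
    congr 1
    push_cast
    rw [one_mul, one_mul, ← Complex.exp_add]
    congr 1
    ring
  rw [h1, norm_mul, Complex.norm_exp_I_mul_ofReal_sub_one, norm_circleMap_zero, abs_one, one_mul,
    Real.norm_eq_abs, abs_mul, abs_two]

lemma B05_apply (E : Set ℂ) (hE : MeasurableSet E) :
    lam E = (ENNReal.ofReal (2 * Real.pi))⁻¹ *
      volume (circleMap 0 1 ⁻¹' E ∩ Ioc 0 (2 * Real.pi)) := by
  unfold lam
  rw [Measure.smul_apply, smul_eq_mul, Measure.map_apply (measurable_circleMap 0 1) hE,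
    Measure.restrict_apply ((measurable_circleMap 0 1) hE)]

lemma B05_shift (E : Set ℂ) (hE : MeasurableSet E) (t : ℝ) :
    volume (circleMap 0 1 ⁻¹' E ∩ Ioc 0 (2 * Real.pi)) =
      volume (circleMap 0 1 ⁻¹' E ∩ Ioc t (t + 2 * Real.pi)) := by
  have h0 := isAddFundamentalDomain_Ioc Real.two_pi_pos 0
  rw [zero_add] at h0
  refine h0.measure_set_eq (isAddFundamentalDomain_Ioc Real.two_pi_pos t)
    ((measurable_circleMap 0 1) hE) ?_
  intro g
  obtain ⟨g, hg⟩ := g
  obtain ⟨n, rfl⟩ := AddSubgroup.mem_zmultiples_iff.1 hg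
  ext x
  simp only [mem_preimage]
  have h1 : circleMap 0 1 ((⟨n • (2 * Real.pi), hg⟩ : AddSubgroup.zmultiples (2 * Real.pi)) +ᵥ x) =
      circleMap 0 1 x := by
    have h2 : ((⟨n • (2 * Real.pi), hg⟩ : AddSubgroup.zmultiples (2 * Real.pi)) +ᵥ x) =
        x + n • (2 * Real.pi) := by
      rw [add_comm]; rfl
    rw [h2]
    exact ((periodic_circleMap 0 1).zsmul n) x
  rw [h1]

lemma B05_center (ξ : ℂ) (r : ℝ) (hξ : ‖ξ‖ = 1) (hr : 0 ≤ r) (hr2 : r ≤ 2) :
    ENNReal.ofReal (r / 4) ≤ lam (closedBall ξ r) ∧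
    lam (closedBall ξ r) ≤ ENNReal.ofReal (r / 2) := by
  have hpi := Real.pi_gt_three
  have hpi4 := Real.pi_le_four
  obtain ⟨φ, rfl⟩ : ∃ φ, circleMap 0 1 φ = ξ := by
    have : ξ ∈ range (circleMap 0 1) := by
      rw [range_circleMap]; simp [hξ]
    exact this
  have hm : MeasurableSet (closedBall (circleMap 0 1 φ) r) := measurableSet_closedBall
  rw [B05_apply _ hm, B05_shift _ hm (φ - Real.pi)]
  have hc0 : ENNReal.ofReal (2 * Real.pi) ≠ 0 := by
    rw [ne_eq, ENNReal.ofReal_eq_zero, not_le]; positivity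
  have hct : ENNReal.ofReal (2 * Real.pi) ≠ ⊤ := ENNReal.ofReal_ne_top
  constructor
  · rw [mul_comm, ← div_eq_mul_inv, ENNReal.le_div_iff_mul_le (Or.inl hc0) (Or.inl hct),
      ← ENNReal.ofReal_mul (by positivity)]
    have hsub : Ioc (φ - r) (φ + r) ⊆ circleMap 0 1 ⁻¹' closedBall (circleMap 0 1 φ) r ∩
        Ioc (φ - Real.pi) (φ - Real.pi + 2 * Real.pi) := by
      intro θ hθ
      rw [mem_Ioc] at hθ
      refine ⟨?_, ?_⟩
      · rw [mem_preimage, mem_closedBall, dist_eq_norm, B05_norm_sub]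
        have h1 : |Real.sin ((θ - φ) / 2)| ≤ |(θ - φ) / 2| := Real.abs_sin_le_abs
        have h2 : |(θ - φ) / 2| ≤ r / 2 := by
          rw [abs_le]; constructor <;> linarith
        linarith
      · rw [mem_Ioc]; constructor <;> linarith
    calc ENNReal.ofReal (r / 4 * (2 * Real.pi)) ≤ ENNReal.ofReal ((φ + r) - (φ - r)) := by
          apply ENNReal.ofReal_le_ofReal; nlinarith
      _ = volume (Ioc (φ - r) (φ + r)) := by rw [Real.volume_Ioc]
      _ ≤ _ := measure_mono hsub
  · rw [mul_comm, ← div_eq_mul_inv, ENNReal.div_le_iff_le_mul (Or.inl hc0) (Or.inl hct),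
      ← ENNReal.ofReal_mul (by positivity)]
    have hsub : circleMap 0 1 ⁻¹' closedBall (circleMap 0 1 φ) r ∩
        Ioc (φ - Real.pi) (φ - Real.pi + 2 * Real.pi) ⊆
        Icc (φ - Real.pi / 2 * r) (φ + Real.pi / 2 * r) := by
      rintro θ ⟨h1, h2⟩
      rw [mem_preimage, mem_closedBall, dist_eq_norm, B05_norm_sub] at h1
      rw [mem_Ioc] at h2
      have h3 : |(θ - φ) / 2| ≤ Real.pi / 2 := by
        rw [abs_le]; constructor <;> linarith
      have h4 := Real.mul_abs_le_abs_sin h3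
      have h5 : 2 / Real.pi * |(θ - φ) / 2| ≤ r / 2 := by linarith
      have h6 : |(θ - φ) / 2| ≤ Real.pi / 2 * (r / 2) := by
        have h7 : |(θ - φ) / 2| = Real.pi / 2 * (2 / Real.pi * |(θ - φ) / 2|) := by
          field_simp
        rw [h7]
        exact mul_le_mul_of_nonneg_left h5 (by positivity)
      rw [abs_le] at h6
      rw [mem_Icc]
      constructor <;> linarith [h6.1, h6.2]
    calc _ ≤ volume (Icc (φ - Real.pi / 2 * r) (φ + Real.pi / 2 * r)) := measure_mono hsub
      _ = ENNReal.ofReal ((φ + Real.pi / 2 * r) - (φ - Real.pi / 2 * r)) := by rw [Real.volume_Icc]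
      _ ≤ ENNReal.ofReal (r / 2 * (2 * Real.pi)) := by
          apply ENNReal.ofReal_le_ofReal; nlinarith

theorem B05 : B05_stmt := by
  have hc0 : ENNReal.ofReal (2 * Real.pi) ≠ 0 := by
    rw [ne_eq, ENNReal.ofReal_eq_zero, not_le]; positivity
  have hct : ENNReal.ofReal (2 * Real.pi) ≠ ⊤ := ENNReal.ofReal_ne_top
  have hprob : lam univ = 1 := by
    rw [B05_apply _ MeasurableSet.univ, preimage_univ, univ_inter, Real.volume_Ioc, sub_zero,
      ENNReal.inv_mul_cancel hc0 hct]
  have hcirc : lam circᶜ = 0 := by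
    have hm : MeasurableSet (circᶜ) := (isClosed_sphere (x := (0 : ℂ)) (ε := 1)).measurableSet.compl
    rw [B05_apply _ hm]
    have h1 : circleMap 0 1 ⁻¹' circᶜ = ∅ := by
      ext θ
      simp only [mem_preimage, mem_compl_iff, mem_empty_iff_false, iff_false, not_not]
      exact circleMap_mem_sphere 0 zero_le_one θ
    rw [h1, empty_inter, measure_empty, mul_zero]
  refine ⟨⟨hprob⟩, hcirc, ?_, ?_, ?_⟩
  · intro ξ r hξ hr hr2
    obtain ⟨h1, h2⟩ := B05_center ξ r hξ hr hr2
    exact ⟨h1, h2.trans (ENNReal.ofReal_le_ofReal (by linarith))⟩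
  · intro z r hr
    by_cases h1 : 1 ≤ r
    · calc lam (closedBall z r) ≤ lam univ := measure_mono (subset_univ _)
        _ = ENNReal.ofReal 1 := by rw [hprob, ENNReal.ofReal_one]
        _ ≤ ENNReal.ofReal r := ENNReal.ofReal_le_ofReal h1
    · push Not at h1
      by_cases h2 : (closedBall z r ∩ circ).Nonempty
      · obtain ⟨ξ, hξ1, hξ2⟩ := h2
        have hξ3 : ‖ξ‖ = 1 := by
          have : ξ ∈ sphere (0 : ℂ) 1 := hξ2
          simpa using this
        have hsub : closedBall z r ⊆ closedBall ξ (2 * r) := by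
          intro w hw
          rw [mem_closedBall] at hw hξ1 ⊢
          have := dist_triangle_right w ξ z
          linarith
        calc lam (closedBall z r) ≤ lam (closedBall ξ (2 * r)) := measure_mono hsub
          _ ≤ ENNReal.ofReal (2 * r / 2) := (B05_center ξ (2 * r) hξ3 (by linarith) (by linarith)).2
          _ = ENNReal.ofReal r := by congr 1; ring
      · have h3 : closedBall z r ⊆ circᶜ := by
          intro w hw hc
          exact h2 ⟨w, hw, hc⟩
        calc lam (closedBall z r) ≤ lam circᶜ := measure_mono h3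
          _ = 0 := hcirc
          _ ≤ _ := zero_le
  · intro f hf
    unfold lam
    rw [lintegral_smul_measure, lintegral_map hf (measurable_circleMap 0 1), smul_eq_mul]

end Pool.Agent.SG
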