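import Pool.Agent.helper48.SG.SpecH

/-!
# Project sg: part H18, a Poisson integral
-/

set_option autoImplicit false

open MeasureTheory Set Metric Filter Topology
open scoped ENNReal NNReal ComplexConjugate

namespace Pool.Agent.SG

theorem H18 (hB05 : B05_stmt) (hK02 : K02_stmt) : H18_stmt := by
  obtain ⟨hprob, hcirc, -⟩ := hB05
  intro ρ α ξ hρ hα hα1 hξ
  obtain ⟨hρ0, hρ1⟩ := hρ
  have h1ρ : 0 < 1 - ρ := by linarith
  have hz : ‖(ρ : ℂ) * ξ‖ = ρ := by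
    rw [norm_mul, hξ, mul_one, Complex.norm_real, Real.norm_eq_abs, abs_of_pos hρ0]
  have hae : ∀ᵐ ζ ∂lam, ‖ζ‖ = 1 := by
    have h1 : ∀ᵐ ζ ∂lam, ζ ∈ circ := by rw [ae_iff]; exact hcirc
    filter_upwards [h1] with ζ hζ
    have : ζ ∈ sphere (0 : ℂ) 1 := hζ
    simpa using this
  have hlow : ∀ ζ : ℂ, ‖ζ‖ = 1 → 1 - ρ ≤ ‖ζ - ρ * ξ‖ := by
    intro ζ hζ
    have := norm_sub_norm_le ζ (ρ * ξ)
    rw [hζ, hz] at this
    exact this
  have hpnn : ∀ ζ, 0 ≤ poi (ρ * ξ) ζ := by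
    intro ζ
    unfold poi
    rw [hz]
    have : 0 ≤ 1 - ρ ^ 2 := by nlinarith
    positivity
  have hpb : ∀ ζ : ℂ, ‖ζ‖ = 1 → poi (ρ * ξ) ζ ≤ (1 - ρ ^ 2) / (1 - ρ) ^ 2 := by
    intro ζ hζ
    unfold poi
    rw [hz]
    have h0 : 0 ≤ 1 - ρ ^ 2 := by nlinarith
    apply div_le_div_of_nonneg_left h0 (by positivity)
    exact pow_le_pow_left₀ h1ρ.le (hlow ζ hζ) 2
  have hpm : Measurable (fun ζ => poi (ρ * ξ) ζ) := by
    unfold poi
    fun_prop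
  have hI1 : Integrable (fun ζ => poi (ρ * ξ) ζ) lam := by
    refine Integrable.mono' (integrable_const ((1 - ρ ^ 2) / (1 - ρ) ^ 2)) hpm.aestronglyMeasurable ?_
    filter_upwards [hae] with ζ hζ
    rw [Real.norm_eq_abs, abs_of_nonneg (hpnn ζ)]
    exact hpb ζ hζ
  have hint1 : ∫ ζ, poi (ρ * ξ) ζ ∂lam = 1 := by
    have h1 := hK02 2 (fun _ => 1) (by norm_num) (differentiableOn_const 1) (ρ * ξ)
      (by rw [hz]; exact hρ1)
    simp only [mul_one] at h1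
    rw [integral_complex_ofReal] at h1
    exact_mod_cast h1
  have hqm : Measurable (fun ζ : ℂ => poi (ρ * ξ) ζ * ‖ξ - ζ‖ ^ α) := by
    refine hpm.mul ?_
    exact (measurable_const.sub measurable_id).norm.pow_const α
  have hd2 : ∀ ζ : ℂ, ‖ζ‖ = 1 → ‖ξ - ζ‖ ≤ 2 := by
    intro ζ hζ
    have := norm_sub_le ξ ζ
    rw [hξ, hζ] at this
    linarith
  have h2α : ∀ ζ : ℂ, ‖ζ‖ = 1 → ‖ξ - ζ‖ ^ α ≤ 2 := by
    intro ζ hζ
    calc ‖ξ - ζ‖ ^ α ≤ 2 ^ α := Real.rpow_le_rpow (norm_nonneg _) (hd2 ζ hζ) hα.le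
      _ ≤ 2 ^ (1 : ℝ) := Real.rpow_le_rpow_of_exponent_le (by norm_num) hα1
      _ = 2 := Real.rpow_one 2
  have hqnn : ∀ ζ, 0 ≤ poi (ρ * ξ) ζ * ‖ξ - ζ‖ ^ α := fun ζ =>
    mul_nonneg (hpnn ζ) (Real.rpow_nonneg (norm_nonneg _) _)
  have hI2 : Integrable (fun ζ => poi (ρ * ξ) ζ * ‖ξ - ζ‖ ^ α) lam := by
    refine Integrable.mono' (hI1.mul_const 2) hqm.aestronglyMeasurable ?_
    filter_upwards [hae] with ζ hζ
    rw [Real.norm_eq_abs, abs_of_nonneg (hqnn ζ)]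
    exact mul_le_mul_of_nonneg_left (h2α ζ hζ) (hpnn ζ)
  refine ⟨hI1, hint1, hI2, ?_⟩
  -- the estimate
  set D : ℝ := (1 - ρ) ^ (α / 3) with hD
  have hD0 : 0 < D := Real.rpow_pos_of_pos h1ρ _
  set d : ℝ := (1 - ρ) ^ (1 / 3 : ℝ) with hd
  have hd0 : 0 < d := Real.rpow_pos_of_pos h1ρ _
  have hdα : d ^ α = D := by
    rw [hd, hD, ← Real.rpow_mul h1ρ.le]
    congr 1; ring
  have hd3 : d ^ 3 = 1 - ρ := by
    rw [hd, ← Real.rpow_natCast, ← Real.rpow_mul h1ρ.le]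
    norm_num
  have hdD : d ≤ D := by
    rw [hd, hD]
    apply Real.rpow_le_rpow_of_exponent_ge h1ρ (by linarith)
    linarith
  have hpt : ∀ᵐ ζ ∂lam, poi (ρ * ξ) ζ * ‖ξ - ζ‖ ^ α ≤ poi (ρ * ξ) ζ * D + 16 * D := by
    filter_upwards [hae] with ζ hζ
    by_cases hc : ‖ξ - ζ‖ ≤ d
    · have h1 : ‖ξ - ζ‖ ^ α ≤ D := by
        rw [← hdα]
        exact Real.rpow_le_rpow (norm_nonneg _) hc hα.le
      have h2 := mul_le_mul_of_nonneg_left h1 (hpnn ζ)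
      linarith
    · push Not at hc
      have h1 : ‖ξ - ζ‖ ≤ 2 * ‖ζ - ρ * ξ‖ := by
        have h2 : ξ - ζ = ((1 - ρ : ℝ) : ℂ) * ξ - (ζ - ρ * ξ) := by push_cast; ring
        have h3 : ‖ξ - ζ‖ ≤ (1 - ρ) + ‖ζ - ρ * ξ‖ := by
          conv_lhs => rw [h2]
          refine (norm_sub_le _ _).trans ?_
          rw [norm_mul, hξ, mul_one, Complex.norm_real, Real.norm_eq_abs, abs_of_pos h1ρ]
        linarith [hlow ζ hζ]
      have h4 : d / 2 ≤ ‖ζ - ρ * ξ‖ := by linarith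
      have h5 : poi (ρ * ξ) ζ ≤ 8 * d := by
        unfold poi
        have hpos : 0 < ‖ζ - ρ * ξ‖ := h1ρ.trans_le (hlow ζ hζ)
        rw [hz, div_le_iff₀ (by positivity)]
        have h6 : (d / 2) ^ 2 ≤ ‖ζ - ρ * ξ‖ ^ 2 := pow_le_pow_left₀ (by positivity) h4 2
        have h7 : 1 - ρ ^ 2 ≤ 2 * (1 - ρ) := by nlinarith
        have h8 : 8 * d * (d / 2) ^ 2 = 2 * (1 - ρ) := by
          rw [← hd3]; ring
        have h9 : 8 * d * (d / 2) ^ 2 ≤ 8 * d * ‖ζ - ρ * ξ‖ ^ 2 :=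
          mul_le_mul_of_nonneg_left h6 (by positivity)
        linarith
      have h6 : poi (ρ * ξ) ζ * ‖ξ - ζ‖ ^ α ≤ 8 * d * 2 :=
        mul_le_mul h5 (h2α ζ hζ) (Real.rpow_nonneg (norm_nonneg _) _) (by positivity)
      have h7 : 0 ≤ poi (ρ * ξ) ζ * D := mul_nonneg (hpnn ζ) hD0.le
      linarith
  have hI3 : Integrable (fun ζ => poi (ρ * ξ) ζ * D + 16 * D) lam :=
    (hI1.mul_const D).add (integrable_const _)
  calc ∫ ζ, poi (ρ * ξ) ζ * ‖ξ - ζ‖ ^ α ∂lam ≤ ∫ ζ, (poi (ρ * ξ) ζ * D + 16 * D) ∂lam :=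
        integral_mono_ae hI2 hI3 hpt
    _ = 1 * D + 16 * D := by
        rw [integral_add (hI1.mul_const D) (integrable_const _), integral_mul_const, hint1,
          integral_const]
        simp
    _ = 17 * D := by ring

end Pool.Agent.SG
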