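import Pool.Agent.helper3.SG.SpecS

/-!
# Project sg: part S13, conjugation of a representation
-/

set_option autoImplicit false

open MeasureTheory Set Metric Filter Topology
open scoped ENNReal NNReal ComplexConjugate commutatorElement

namespace Pool.Agent.SG

lemma S13_measurable (a b : ℂ) : Measurable (mob a b) := by
  unfold mob
  fun_prop

lemma S13_cc {a b : ℂ} (h : ‖a‖ ^ 2 - ‖b‖ ^ 2 = 1) : a * conj a - b * conj b = 1 := by
  rw [Complex.mul_conj, Complex.mul_conj, Complex.normSq_eq_norm_sq, Complex.normSq_eq_norm_sq]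
  exact_mod_cast h

lemma S13_of_cc {a b : ℂ} (h : a * conj a - b * conj b = 1) : ‖a‖ ^ 2 - ‖b‖ ^ 2 = 1 := by
  rw [Complex.mul_conj, Complex.mul_conj, Complex.normSq_eq_norm_sq, Complex.normSq_eq_norm_sq] at h
  exact_mod_cast h

lemma S13_lt {a b : ℂ} (h : ‖a‖ ^ 2 - ‖b‖ ^ 2 = 1) : ‖b‖ < ‖a‖ := by
  by_contra hc
  push Not at hc
  have := norm_nonneg a
  nlinarith [norm_nonneg b]

lemma S13_den {a b z : ℂ} (h : ‖a‖ ^ 2 - ‖b‖ ^ 2 = 1) (hz : ‖z‖ ≤ 1) :
    conj b * z + conj a ≠ 0 := by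
  intro h0
  have h1 : conj a = -(conj b * z) := by linear_combination h0
  have h2 : ‖a‖ = ‖b‖ * ‖z‖ := by
    rw [← Complex.norm_conj a, h1, norm_neg, norm_mul, Complex.norm_conj]
  have h3 := S13_lt h
  have h4 : ‖b‖ * ‖z‖ ≤ ‖b‖ * 1 := mul_le_mul_of_nonneg_left hz (norm_nonneg _)
  linarith

/-- composition -/
lemma S13_comp {a b c d z : ℂ} (h1 : ‖a‖ ^ 2 - ‖b‖ ^ 2 = 1) (h2 : ‖c‖ ^ 2 - ‖d‖ ^ 2 = 1)
    (hz : ‖z‖ ≤ 1) :
    mob a b (mob c d z) = mob (a * c + b * conj d) (a * d + b * conj c) z := by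
  have hD := S13_den h2 hz
  unfold mob
  rw [map_add, map_add, map_mul, map_mul, map_mul, map_mul, Complex.conj_conj, Complex.conj_conj]
  have e1 : a * ((c * z + d) / (conj d * z + conj c)) + b =
      ((a * c + b * conj d) * z + (a * d + b * conj c)) / (conj d * z + conj c) := by
    rw [eq_div_iff hD, add_mul, mul_assoc, div_mul_cancel₀ _ hD]
    ring
  have e2 : conj b * ((c * z + d) / (conj d * z + conj c)) + conj a =
      ((conj a * conj d + conj b * c) * z + (conj a * conj c + conj b * d)) /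
        (conj d * z + conj c) := by
    rw [eq_div_iff hD, add_mul, mul_assoc, div_mul_cancel₀ _ hD]
    ring
  rw [e1, e2, div_div_div_cancel_right₀ hD]

lemma S13_mul {a b c d : ℂ} (h1 : ‖a‖ ^ 2 - ‖b‖ ^ 2 = 1) (h2 : ‖c‖ ^ 2 - ‖d‖ ^ 2 = 1) :
    ‖a * c + b * conj d‖ ^ 2 - ‖a * d + b * conj c‖ ^ 2 = 1 := by
  apply S13_of_cc
  have e1 := S13_cc h1
  have e2 := S13_cc h2
  simp only [map_add, map_mul, Complex.conj_conj]
  linear_combination (c * conj c - d * conj d) * e1 + e2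

/-- the identity `1 - |mob z|^2` -/
lemma S13_one_sub {a b z : ℂ} (h : ‖a‖ ^ 2 - ‖b‖ ^ 2 = 1) (hz : ‖z‖ ≤ 1) :
    (1 - ‖mob a b z‖ ^ 2) * ‖conj b * z + conj a‖ ^ 2 = 1 - ‖z‖ ^ 2 := by
  have hD := S13_den h hz
  have hD' : ‖conj b * z + conj a‖ ≠ 0 := norm_ne_zero_iff.2 hD
  have e1 : ‖mob a b z‖ ^ 2 * ‖conj b * z + conj a‖ ^ 2 = ‖a * z + b‖ ^ 2 := by
    unfold mob
    rw [norm_div, div_pow, div_mul_cancel₀ _ (pow_ne_zero 2 hD')]
  have e2 : ‖conj b * z + conj a‖ ^ 2 - ‖a * z + b‖ ^ 2 = 1 - ‖z‖ ^ 2 := by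
    have hcc := S13_cc h
    have k : ∀ w : ℂ, ((‖w‖ ^ 2 : ℝ) : ℂ) = w * conj w := by
      intro w
      rw [Complex.mul_conj, Complex.normSq_eq_norm_sq]
    have : ((‖conj b * z + conj a‖ ^ 2 - ‖a * z + b‖ ^ 2 : ℝ) : ℂ) = ((1 - ‖z‖ ^ 2 : ℝ) : ℂ) := by
      rw [Complex.ofReal_sub, Complex.ofReal_sub, k, k, k, Complex.ofReal_one]
      simp only [map_add, map_mul, Complex.conj_conj]
      linear_combination (1 - z * conj z) * hcc
    exact_mod_cast this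
  rw [sub_mul, one_mul, e1, e2]

lemma S13_norm_le {a b z : ℂ} (h : ‖a‖ ^ 2 - ‖b‖ ^ 2 = 1) (hz : ‖z‖ ≤ 1) : ‖mob a b z‖ ≤ 1 := by
  have h1 := S13_one_sub h hz
  have hD' : 0 < ‖conj b * z + conj a‖ := norm_pos_iff.2 (S13_den h hz)
  have h2 : 0 ≤ 1 - ‖z‖ ^ 2 := by nlinarith [norm_nonneg z]
  by_contra hc
  push Not at hc
  have h3 : 1 - ‖mob a b z‖ ^ 2 < 0 := by nlinarith
  have h4 : (1 - ‖mob a b z‖ ^ 2) * ‖conj b * z + conj a‖ ^ 2 < 0 :=
    mul_neg_of_neg_of_pos h3 (by positivity)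
  linarith

lemma S13_norm_lt {a b z : ℂ} (h : ‖a‖ ^ 2 - ‖b‖ ^ 2 = 1) (hz : ‖z‖ < 1) : ‖mob a b z‖ < 1 := by
  have h1 := S13_one_sub h hz.le
  have hD' : 0 < ‖conj b * z + conj a‖ := norm_pos_iff.2 (S13_den h hz.le)
  have h2 : 0 < 1 - ‖z‖ ^ 2 := by nlinarith [norm_nonneg z]
  by_contra hc
  push Not at hc
  have h3 : 1 - ‖mob a b z‖ ^ 2 ≤ 0 := by nlinarith
  have h4 : (1 - ‖mob a b z‖ ^ 2) * ‖conj b * z + conj a‖ ^ 2 ≤ 0 :=
    mul_nonpos_of_nonpos_of_nonneg h3 (by positivity)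
  linarith

lemma S13_norm_eq {a b z : ℂ} (h : ‖a‖ ^ 2 - ‖b‖ ^ 2 = 1) (hz : ‖z‖ = 1) : ‖mob a b z‖ = 1 := by
  have h1 := S13_one_sub h hz.le
  have hD' : 0 < ‖conj b * z + conj a‖ := norm_pos_iff.2 (S13_den h hz.le)
  rw [hz, one_pow, sub_self] at h1
  rcases mul_eq_zero.1 h1 with h2 | h2
  · nlinarith [norm_nonneg (mob a b z)]
  · exact absurd h2 (by positivity)

lemma S13_inv {p q : ℂ} (h : ‖p‖ ^ 2 - ‖q‖ ^ 2 = 1) : ‖conj p‖ ^ 2 - ‖-q‖ ^ 2 = 1 := by
  rw [Complex.norm_conj, norm_neg]; exact h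

lemma S13_left {p q z : ℂ} (h : ‖p‖ ^ 2 - ‖q‖ ^ 2 = 1) (hz : ‖z‖ ≤ 1) :
    mob p q (mob (conj p) (-q) z) = z := by
  rw [S13_comp h (S13_inv h) hz]
  have e1 := S13_cc h
  have e2 : p * conj p + q * conj (-q) = 1 := by rw [map_neg]; linear_combination e1
  have e3 : p * -q + q * conj (conj p) = 0 := by rw [Complex.conj_conj]; ring
  rw [e2, e3]
  unfold mob
  simp

lemma S13_right {p q z : ℂ} (h : ‖p‖ ^ 2 - ‖q‖ ^ 2 = 1) (hz : ‖z‖ ≤ 1) :
    mob (conj p) (-q) (mob p q z) = z := by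
  rw [S13_comp (S13_inv h) h hz]
  have e1 := S13_cc h
  have e2 : conj p * p + -q * conj q = 1 := by linear_combination e1
  have e3 : conj p * q + -q * conj p = 0 := by ring
  rw [e2, e3]
  unfold mob
  simp

theorem S13 (h2 : S02_stmt) : S13_stmt := by
  intro p q hpq Γ _ A
  have hP := S13_inv hpq
  -- coefficients of `A γ * P⁻¹`
  have hc1 : ∀ γ, ‖A.a γ * conj p + A.b γ * conj (-q)‖ ^ 2 - ‖A.a γ * (-q) + A.b γ * conj (conj p)‖ ^ 2 = 1 :=
    fun γ => S13_mul (A.norm_eq γ) hP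
  have ha1 : ∀ γ, A.a γ * conj p + A.b γ * conj (-q) = A.a γ * conj p - A.b γ * conj q := by
    intro γ; rw [map_neg]; ring
  have hb1 : ∀ γ, A.a γ * (-q) + A.b γ * conj (conj p) = A.b γ * p - A.a γ * q := by
    intro γ; rw [Complex.conj_conj]; ring
  let a' : Γ → ℂ := fun γ => p * (A.a γ * conj p - A.b γ * conj q)
      + q * (conj (A.b γ) * conj p - conj (A.a γ) * conj q)
  let b' : Γ → ℂ := fun γ => p * (A.b γ * p - A.a γ * q) + q * (conj (A.a γ) * p - conj (A.b γ) * q)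
  have ha' : ∀ γ, a' γ = p * (A.a γ * conj p + A.b γ * conj (-q)) +
      q * conj (A.a γ * (-q) + A.b γ * conj (conj p)) := by
    intro γ
    rw [ha1, hb1, map_sub, map_mul, map_mul]
  have hb' : ∀ γ, b' γ = p * (A.a γ * (-q) + A.b γ * conj (conj p)) +
      q * conj (A.a γ * conj p + A.b γ * conj (-q)) := by
    intro γ
    rw [ha1, hb1, map_sub, map_mul, map_mul, Complex.conj_conj, Complex.conj_conj]
  have hact : ∀ γ z, ‖z‖ ≤ 1 → mob (a' γ) (b' γ) z =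
      mob p q (mob (A.a γ) (A.b γ) (mob (conj p) (-q) z)) := by
    intro γ z hz
    rw [ha', hb', S13_comp (A.norm_eq γ) hP hz, S13_comp hpq (hc1 γ) hz]
  have hnorm : ∀ γ, ‖a' γ‖ ^ 2 - ‖b' γ‖ ^ 2 = 1 := by
    intro γ
    rw [ha', hb']
    exact S13_mul hpq (hc1 γ)
  have hmm : ∀ γ δ z, ‖z‖ ≤ 1 →
      mob (a' (γ * δ)) (b' (γ * δ)) z = mob (a' γ) (b' γ) (mob (a' δ) (b' δ) z) := by
    intro γ δ z hz
    have h1 : ‖mob (conj p) (-q) z‖ ≤ 1 := S13_norm_le hP hz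
    have h3 : ‖mob (A.a δ) (A.b δ) (mob (conj p) (-q) z)‖ ≤ 1 := S13_norm_le (A.norm_eq δ) h1
    rw [hact δ z hz, hact γ _ (S13_norm_le hpq h3), S13_right hpq h3, hact (γ * δ) z hz,
      A.map_mul γ δ _ h1]
  let A' : DiscRep Γ := ⟨a', b', hnorm, hmm⟩
  have hA' : ∀ γ z, ‖z‖ ≤ 1 → A'.act γ (mob p q z) = mob p q (A.act γ z) := by
    intro γ z hz
    show mob (a' γ) (b' γ) (mob p q z) = mob p q (mob (A.a γ) (A.b γ) z)
    rw [hact γ _ (S13_norm_le hpq hz), S13_right hpq hz]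
  refine ⟨A', ⟨fun γ => rfl, fun γ => rfl⟩, hA', ?_, ?_, ?_⟩
  · -- discrete
    intro hd
    obtain ⟨-, hba, -, -, -, -, -, hd1⟩ := h2 Γ A
    obtain ⟨-, hba', -, -, -, -, -, hd2⟩ := h2 Γ A'
    rw [hd2]
    rw [hd1] at hd
    intro K
    refine (hd (2 * (‖p‖ + ‖q‖) ^ 2 * K)).subset ?_
    intro γ hγ
    have hγ' : ‖a' γ‖ ≤ K := hγ
    have hb'a : ‖b' γ‖ ≤ ‖a' γ‖ := hba' γ
    have hcc := S13_cc hpq
    have hinv : A.a γ = conj p * (a' γ * p + b' γ * conj q) -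
        q * (conj (a' γ) * conj q + conj (b' γ) * p) := by
      simp only [a', b', map_add, map_sub, map_mul, Complex.conj_conj]
      linear_combination (-(A.a γ) * (p * conj p - q * conj q + 1)) * hcc
    show ‖A.a γ‖ ≤ 2 * (‖p‖ + ‖q‖) ^ 2 * K
    have h5 : ‖A.a γ‖ ≤ ‖p‖ * (‖a' γ‖ * ‖p‖ + ‖b' γ‖ * ‖q‖) +
        ‖q‖ * (‖a' γ‖ * ‖q‖ + ‖b' γ‖ * ‖p‖) := by
      rw [hinv]
      refine (norm_sub_le _ _).trans ?_
      rw [norm_mul, norm_mul, Complex.norm_conj]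
      refine add_le_add ?_ ?_
      · refine mul_le_mul_of_nonneg_left ?_ (norm_nonneg _)
        refine (norm_add_le _ _).trans ?_
        rw [norm_mul, norm_mul, Complex.norm_conj]
      · refine mul_le_mul_of_nonneg_left ?_ (norm_nonneg _)
        refine (norm_add_le _ _).trans ?_
        rw [norm_mul, norm_mul, Complex.norm_conj, Complex.norm_conj, Complex.norm_conj]
    have hp := norm_nonneg p
    have hq := norm_nonneg q
    have hb0 : ‖b' γ‖ ≤ K := hb'a.trans hγ'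
    have hK : 0 ≤ K := (norm_nonneg _).trans hγ'
    have h6 : ‖p‖ * (‖a' γ‖ * ‖p‖ + ‖b' γ‖ * ‖q‖) + ‖q‖ * (‖a' γ‖ * ‖q‖ + ‖b' γ‖ * ‖p‖) ≤
        ‖p‖ * (K * ‖p‖ + K * ‖q‖) + ‖q‖ * (K * ‖q‖ + K * ‖p‖) := by
      gcongr
    have h7 : ‖p‖ * (K * ‖p‖ + K * ‖q‖) + ‖q‖ * (K * ‖q‖ + K * ‖p‖) = (‖p‖ + ‖q‖) ^ 2 * K := by
      ring
    have h8 : 0 ≤ (‖p‖ + ‖q‖) ^ 2 * K := by positivity
    linarith
  · -- cocompact
    rintro ⟨r, hr, hc⟩
    have hr0 : 0 ≤ r := by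
      obtain ⟨γ, hγ⟩ := hc 0 (by simp)
      exact (norm_nonneg _).trans hγ
    have hp := norm_nonneg p
    have hq := norm_nonneg q
    have hp1 : 1 ≤ ‖p‖ := by nlinarith
    set N : ℝ := ‖p‖ + ‖q‖ with hN
    have hN1 : 1 ≤ N := by linarith
    set κ : ℝ := (1 - r ^ 2) / N ^ 2 with hκ
    have hκ0 : 0 < κ := by
      have : 0 < 1 - r ^ 2 := by nlinarith
      positivity
    refine ⟨Real.sqrt (1 - κ), ?_, ?_⟩
    · calc Real.sqrt (1 - κ) < Real.sqrt 1 := by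
            by_cases h0 : 0 ≤ 1 - κ
            · exact Real.sqrt_lt_sqrt h0 (by linarith)
            · push Not at h0
              rw [Real.sqrt_eq_zero_of_nonpos h0.le]; simp
        _ = 1 := Real.sqrt_one
    · intro z hz
      have hw : ‖mob (conj p) (-q) z‖ < 1 := S13_norm_lt hP hz
      obtain ⟨γ, hγ⟩ := hc _ hw
      refine ⟨γ, ?_⟩
      have h3 : A'.act γ z = mob p q (A.act γ (mob (conj p) (-q) z)) := by
        rw [← hA' γ _ hw.le, S13_left hpq hz.le]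
      rw [h3]
      set v := A.act γ (mob (conj p) (-q) z) with hv
      have hv1 : ‖v‖ ≤ 1 := hγ.trans hr.le
      have h4 := S13_one_sub hpq hv1
      have hDpos : 0 < ‖conj q * v + conj p‖ := norm_pos_iff.2 (S13_den hpq hv1)
      have hDN : ‖conj q * v + conj p‖ ≤ N := by
        refine (norm_add_le _ _).trans ?_
        rw [norm_mul, Complex.norm_conj, Complex.norm_conj]
        nlinarith
      apply Real.le_sqrt_of_sq_le
      have h5 : κ * N ^ 2 = 1 - r ^ 2 := by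
        rw [hκ]; field_simp
      have h6 : 1 - r ^ 2 ≤ 1 - ‖v‖ ^ 2 := by nlinarith [norm_nonneg v]
      have h7 : 0 ≤ 1 - ‖mob p q v‖ ^ 2 := by
        have := S13_norm_le hpq hv1
        nlinarith [norm_nonneg (mob p q v)]
      have h8 : (1 - ‖mob p q v‖ ^ 2) * ‖conj q * v + conj p‖ ^ 2 ≤
          (1 - ‖mob p q v‖ ^ 2) * N ^ 2 := by
        refine mul_le_mul_of_nonneg_left ?_ h7
        exact pow_le_pow_left₀ hDpos.le hDN 2
      have h9 : κ * N ^ 2 ≤ (1 - ‖mob p q v‖ ^ 2) * N ^ 2 := by linarith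
      have h10 : κ ≤ 1 - ‖mob p q v‖ ^ 2 := le_of_mul_le_mul_right h9 (by positivity)
      linarith
  · -- stationary measures
    intro W ν hS
    have hPm := S13_measurable p q
    have hAm : ∀ s, Measurable (A.act s) := fun s => S13_measurable _ _
    have hAm' : ∀ s, Measurable (A'.act s) := fun s => S13_measurable _ _
    have := hS.prob
    refine ⟨Measure.isProbabilityMeasure_map hPm.aemeasurable, ?_, ?_⟩
    · have hm : MeasurableSet (circᶜ) := (isClosed_sphere (x := (0 : ℂ)) (ε := 1)).measurableSet.compl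
      rw [Measure.map_apply hPm hm]
      refine measure_mono_null ?_ hS.supp
      intro z hz hzc
      apply hz
      have hz1 : ‖z‖ = 1 := by
        have : z ∈ sphere (0 : ℂ) 1 := hzc
        simpa using this
      show mob p q z ∈ sphere (0 : ℂ) 1
      simp [S13_norm_eq hpq hz1]
    · ext E hE
      rw [Measure.map_apply hPm hE]
      have h3 : ν (mob p q ⁻¹' E) = (∑ s ∈ W.S, W.μ s • ν.map (A.act s)) (mob p q ⁻¹' E) :=
        congrArg (fun m : Measure ℂ => m (mob p q ⁻¹' E)) hS.stat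
      rw [h3, Measure.finsetSum_apply, Measure.finsetSum_apply]
      refine Finset.sum_congr rfl fun s _ => ?_
      rw [Measure.smul_apply, Measure.smul_apply, Measure.map_apply (hAm s) (hPm hE),
        Measure.map_map (hAm' s) hPm, Measure.map_apply ((hAm' s).comp hPm) hE]
      congr 1
      have hae : ∀ᵐ z ∂ν, z ∈ circ := by
        rw [ae_iff]
        exact hS.supp
      apply measure_congr
      filter_upwards [hae] with z hz
      have hz1 : ‖z‖ = 1 := by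
        have : z ∈ sphere (0 : ℂ) 1 := hz
        simpa using this
      have h4 : A'.act s (mob p q z) = mob p q (A.act s z) := hA' s z hz1.le
      apply propext
      show mob p q (A.act s z) ∈ E ↔ A'.act s (mob p q z) ∈ E
      rw [h4]

end Pool.Agent.SG
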